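import Pool.Agent.Work.MP_b5407d_lp.Interface

set_option autoImplicit false
open MeasureTheory Real Filter Topology
open scoped ContDiff

/-!
Block JOH of the campaign LP (MP_b5407d_gt): normalisation by the John ellipsoid of `K ∩ -K`
(maximal determinant).
-/

namespace Pool.Agent.Work.LPBM.helper71

theorem hull {n : ℕ} (Z : Set (E n)) (hZ : Convex ℝ Z) (hball : ∀ y : E n, ‖y‖ ≤ 1 → y ∈ Z)
    (e : E n) (he : ‖e‖ = 1) (q : ℝ) (hq : 1 < q) (hz : q • e ∈ Z) (s : ℝ) (p : E n)
    (hp : inner ℝ e p = 0) (hsp : s ^ 2 + ‖p‖ ^ 2 ≤ 1) (a b ε : ℝ) (ha : a ^ 2 = 1 + ε * (q ^ 2 - 1))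
    (hb : b ^ 2 = 1 - ε) (ha0 : 0 ≤ a) (hb0 : 0 ≤ b) (hε0 : 0 ≤ ε) (hs : 0 ≤ s) :
    (a * s) • e + b • p ∈ Z := by
  have hq0 : 0 < q := by linarith
  set c : ℝ := 1 / q with hc
  have hc0 : 0 < c := by positivity
  have hcq : c * q = 1 := by rw [hc]; field_simp
  have hc1 : c < 1 := by nlinarith
  have ha1 : 1 ≤ a ^ 2 := by nlinarith [mul_nonneg hε0 (by nlinarith : (0:ℝ) ≤ q ^ 2 - 1)]
  have hnorm : ∀ (X : ℝ) (P : E n), inner ℝ e P = 0 → ‖X • e + P‖ ^ 2 = X ^ 2 + ‖P‖ ^ 2 := by
    intro X P hP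
    have h1 : inner ℝ (X • e) P = 0 := by rw [inner_smul_left, hP, mul_zero]
    have h2 := norm_add_sq_eq_norm_sq_add_norm_sq_of_inner_eq_zero (X • e) P h1
    rw [← pow_two, ← pow_two, ← pow_two, norm_smul, he, mul_one, Real.norm_eq_abs, sq_abs] at h2
    exact h2
  by_cases hX : a * s ≤ c
  · apply hball
    have h1 : inner ℝ e (b • p) = 0 := by rw [inner_smul_right, hp, mul_zero]
    have h2 : ‖(a * s) • e + b • p‖ ^ 2 = (1 + ε * (q ^ 2 - 1)) * s ^ 2 + (1 - ε) * ‖p‖ ^ 2 := by
      rw [hnorm (a * s) (b • p) h1, norm_smul, mul_pow, mul_pow, Real.norm_eq_abs, sq_abs, ha, hb]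
    have h3 : (a * s) ^ 2 ≤ c ^ 2 := by
      have : 0 ≤ a * s := mul_nonneg ha0 hs
      nlinarith
    have h4 : (a * s) ^ 2 * q ^ 2 ≤ 1 := by
      have : c ^ 2 * q ^ 2 = 1 := by rw [← mul_pow, hcq, one_pow]
      nlinarith [mul_le_mul_of_nonneg_right h3 (sq_nonneg q)]
    have h5 : s ^ 2 * q ^ 2 ≤ 1 := by
      have : s ^ 2 * q ^ 2 ≤ (a * s) ^ 2 * q ^ 2 := by
        rw [mul_pow]
        have : s ^ 2 * q ^ 2 ≤ a ^ 2 * (s ^ 2 * q ^ 2) := le_mul_of_one_le_left (by positivity) ha1
        linarith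
      linarith
    have h6 : ‖(a * s) • e + b • p‖ ^ 2 ≤ 1 := by
      rw [h2]
      have h7 : (1 - ε) * ‖p‖ ^ 2 ≤ (1 - ε) * (1 - s ^ 2) := by
        apply mul_le_mul_of_nonneg_left (by linarith)
        rw [← hb]; positivity
      nlinarith [mul_le_mul_of_nonneg_left h5 hε0]
    nlinarith [norm_nonneg ((a * s) • e + b • p)]
  · push Not at hX
    have hcc : 0 < 1 - c ^ 2 := by nlinarith
    set d : ℝ := √(1 - c ^ 2) with hd
    have hd0 : 0 < d := Real.sqrt_pos.2 hcc
    have hd2 : d ^ 2 = 1 - c ^ 2 := Real.sq_sqrt hcc.le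
    have hcs : a ^ 2 * c ^ 2 + b ^ 2 * d ^ 2 = 1 := by
      rw [ha, hb, hd2]
      have : q ^ 2 * c ^ 2 = 1 := by rw [← mul_pow, mul_comm q c, hcq, one_pow]
      nlinarith
    have htan : (a * s) * c + (b * ‖p‖) * d ≤ 1 := by
      have h1 : ((a * c) * s + (b * d) * ‖p‖) ^ 2 ≤ 1 := by
        have : ((a * c) * s + (b * d) * ‖p‖) ^ 2
            ≤ ((a * c) ^ 2 + (b * d) ^ 2) * (s ^ 2 + ‖p‖ ^ 2) := by
          nlinarith [sq_nonneg ((a * c) * ‖p‖ - (b * d) * s)]
        have h2 : (a * c) ^ 2 + (b * d) ^ 2 = 1 := by rw [mul_pow, mul_pow]; exact hcs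
        rw [h2, one_mul] at this
        linarith
      have h3 : (a * c) * s + (b * d) * ‖p‖ ≤ 1 := by nlinarith
      linarith
    have hbp : 0 ≤ b * ‖p‖ := mul_nonneg hb0 (norm_nonneg _)
    have hXq : a * s ≤ q := by
      have : (a * s) * c ≤ 1 := by nlinarith [mul_nonneg hbp hd0.le]
      calc a * s = (a * s) * c * q := by rw [mul_assoc, hcq, mul_one]
        _ ≤ 1 * q := mul_le_mul_of_nonneg_right this hq0.le
        _ = q := one_mul q
    rcases hXq.lt_or_eq with hlt | heq
    · set l : ℝ := (a * s - c) / (q - c) with hl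
      have hqc : 0 < q - c := by linarith
      have hl0 : 0 ≤ l := div_nonneg (by linarith) hqc.le
      have hl1 : l < 1 := by rw [hl, div_lt_one hqc]; linarith
      have h1l : 0 < 1 - l := by linarith
      have h1le : 1 - l = (q - a * s) / (q - c) := by rw [hl]; field_simp; ring
      have hw : c • e + (1 - l)⁻¹ • (b • p) ∈ Z := by
        apply hball
        have h1 : inner ℝ e ((1 - l)⁻¹ • (b • p)) = 0 := by
          rw [inner_smul_right, inner_smul_right, hp, mul_zero, mul_zero]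
        have h2 := hnorm c ((1 - l)⁻¹ • (b • p)) h1
        have h3 : ‖(1 - l)⁻¹ • (b • p)‖ ≤ d := by
          rw [norm_smul, norm_smul, Real.norm_eq_abs, Real.norm_eq_abs, abs_of_pos (inv_pos.2 h1l),
            abs_of_nonneg hb0, inv_mul_le_iff₀ h1l]
          -- b ‖p‖ ≤ (1 - l) d
          have h4 : b * ‖p‖ * d ≤ (1 - l) * d * d := by
            have h5 : (1 - l) * d * d = 1 - (a * s) * c := by
              rw [mul_assoc, ← pow_two, hd2, h1le]
              have hqc2 : (1 - c ^ 2) = (q - c) * c := by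
                rw [sub_mul, mul_comm q c, hcq]; ring
              rw [hqc2]
              field_simp
              rw [sub_mul, mul_comm q c, hcq]
            rw [h5]
            linarith
          exact le_of_mul_le_mul_right h4 hd0
        have h6 : ‖c • e + (1 - l)⁻¹ • (b • p)‖ ^ 2 ≤ 1 := by
          rw [h2]
          have : ‖(1 - l)⁻¹ • (b • p)‖ ^ 2 ≤ d ^ 2 :=
            pow_le_pow_left₀ (norm_nonneg _) h3 2
          linarith
        nlinarith [norm_nonneg (c • e + (1 - l)⁻¹ • (b • p))]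
      have hcomb := hZ hz hw hl0 h1l.le (by ring)
      have : (a * s) • e + b • p = l • (q • e) + (1 - l) • (c • e + (1 - l)⁻¹ • (b • p)) := by
        have h7 : a * s = l * q + (1 - l) * c := by
          rw [hl]; field_simp; ring
        rw [h7, smul_add, smul_smul, smul_smul, smul_smul (1 - l) (1 - l)⁻¹, mul_inv_cancel₀ h1l.ne',
          one_smul, add_smul, add_assoc]
      rw [this]
      exact hcomb
    · have h8 : b * ‖p‖ * d ≤ 0 := by
        rw [heq, mul_comm q c, hcq] at htan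
        linarith
      have h9 : b * ‖p‖ = 0 := by
        have : b * ‖p‖ ≤ 0 := by
          by_contra h
          push Not at h
          have := mul_pos h hd0
          linarith
        linarith
      have h10 : b • p = 0 := by
        rw [← norm_eq_zero, norm_smul, Real.norm_eq_abs, abs_of_nonneg hb0, h9]
      rw [h10, add_zero, heq]
      exact hz

/-- the map `a` on `ℝ e`, `b` on its orthogonal complement -/
noncomputable def Tm {n : ℕ} (e : E n) (a b : ℝ) : E n →L[ℝ] E n :=
  b • ContinuousLinearMap.id ℝ (E n) + (innerSL ℝ e).smulRight ((a - b) • e)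

theorem Tm_apply {n : ℕ} (e : E n) (a b : ℝ) (y : E n) :
    Tm e a b y = b • y + inner ℝ e y • ((a - b) • e) := by
  simp [Tm]

theorem Tm_eq {n : ℕ} (e : E n) (a b : ℝ) (y : E n) :
    Tm e a b y = (a * inner ℝ e y) • e + b • (y - (inner ℝ e y) • e) := by
  rw [Tm_apply]
  module

theorem Tm_det {n : ℕ} (hn : 1 ≤ n) (e : E n) (he : ‖e‖ = 1) (a b : ℝ) (hb : b ≠ 0) :
    (Tm e a b).det = a * b ^ (n - 1) := by
  have h1 : ((Tm e a b : E n →L[ℝ] E n) : E n →ₗ[ℝ] E n)
      = b • LinearMap.transvection ((innerSL ℝ e : E n →L[ℝ] ℝ) : E n →ₗ[ℝ] ℝ) (((a - b) / b) • e) := by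
    ext1 y
    rw [ContinuousLinearMap.coe_coe, Tm_apply, LinearMap.smul_apply, LinearMap.transvection.apply]
    simp only [ContinuousLinearMap.coe_coe, innerSL_apply_apply, smul_add, smul_smul]
    congr 2
    field_simp
  have h2 : (Tm e a b).det = LinearMap.det ((Tm e a b : E n →L[ℝ] E n) : E n →ₗ[ℝ] E n) := rfl
  rw [h2, h1, LinearMap.det_smul, LinearMap.transvection.det]
  simp only [finrank_euclideanSpace, Fintype.card_fin, map_smul, ContinuousLinearMap.coe_coe,
    innerSL_apply_apply, real_inner_self_eq_norm_sq, he]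
  obtain ⟨m, rfl⟩ : ∃ m, n = m + 1 := ⟨n - 1, by omega⟩
  simp only [Nat.add_sub_cancel, smul_eq_mul, one_pow, mul_one]
  rw [pow_succ]
  field_simp
  ring

theorem stmt_JOH : Stmt_JOH := by
  intro n K hn hK hKc hK0 hneg
  have hn0 : (0 : ℝ) < n := by exact_mod_cast hn
  set S : Set (E n) := {x | x ∈ K ∧ -x ∈ K} with hS
  have hSconv : Convex ℝ S := by
    intro x hx y hy s t hs ht hst
    refine ⟨hK hx.1 hy.1 hs ht hst, ?_⟩
    have := hK hx.2 hy.2 hs ht hst
    rw [neg_add, ← smul_neg, ← smul_neg]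
    exact this
  have hSclosed : IsClosed S := by
    have h1 : IsClosed {x : E n | -x ∈ K} := hKc.isClosed.preimage continuous_neg
    exact hKc.isClosed.inter h1
  have hSsym : ∀ x ∈ S, -x ∈ S := fun x hx => ⟨hx.2, by rw [neg_neg]; exact hx.1⟩
  obtain ⟨R, hR⟩ := hKc.isBounded.exists_norm_le
  obtain ⟨r, hr0, hr⟩ := Metric.isOpen_iff.1 isOpen_interior 0 hK0
  -- the compact set of maps
  set L : Set (E n →L[ℝ] E n) := {B | ∀ y : E n, ‖y‖ ≤ 1 → B y ∈ S} with hL
  have hLclosed : IsClosed L := by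
    have : L = ⋂ y : E n, ⋂ _ : ‖y‖ ≤ 1, {B : E n →L[ℝ] E n | B y ∈ S} := by
      ext B
      simp [hL]
    rw [this]
    refine isClosed_iInter fun y => isClosed_iInter fun _ => ?_
    have hev : Continuous (fun B : E n →L[ℝ] E n => B y) := by fun_prop
    exact hSclosed.preimage hev
  have hLbdd : Bornology.IsBounded L := by
    refine (Metric.isBounded_iff_subset_closedBall 0).2 ⟨max R 0, fun B hB => ?_⟩
    rw [mem_closedBall_zero_iff]
    refine ContinuousLinearMap.opNorm_le_of_unit_norm (le_max_right _ _) fun y hy => ?_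
    exact (hR _ (hB y hy.le).1).trans (le_max_left _ _)
  have hLc : IsCompact L := Metric.isCompact_of_isClosed_isBounded hLclosed hLbdd
  have hid : ((r / 2) • ContinuousLinearMap.id ℝ (E n)) ∈ L := by
    intro y hy
    have h1 : ∀ z : E n, ‖z‖ ≤ 1 → (r / 2) • z ∈ K := by
      intro z hz
      apply interior_subset
      apply hr
      rw [mem_ball_zero_iff, norm_smul, Real.norm_eq_abs, abs_of_pos (by positivity)]
      nlinarith
    refine ⟨?_, ?_⟩
    · exact h1 y hy
    · have := h1 (-y) (by rw [norm_neg]; exact hy)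
      rw [smul_neg] at this
      exact this
  obtain ⟨B, hBL, hBmax⟩ := hLc.exists_isMaxOn ⟨_, hid⟩
    (f := fun B : E n →L[ℝ] E n => |B.det|)
    (ContinuousLinearMap.continuous_det.abs.continuousOn)
  have hdet : 0 < |B.det| := by
    have h1 := hBmax hid
    simp only [Set.mem_ofPred_eq] at h1
    have h2 : ((r / 2) • ContinuousLinearMap.id ℝ (E n)).det = (r / 2) ^ n := by
      have : ((r / 2) • ContinuousLinearMap.id ℝ (E n)).det
          = LinearMap.det ((r / 2) • (LinearMap.id : E n →ₗ[ℝ] E n)) := rfl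
      rw [this, LinearMap.det_smul, LinearMap.det_id, mul_one]
      simp
    rw [h2, abs_of_pos (by positivity)] at h1
    exact lt_of_lt_of_le (by positivity) h1
  have hdet0 : B.det ≠ 0 := abs_pos.1 hdet
  -- the claim
  have hclaim : ∀ z : E n, B z ∈ S → ‖z‖ ^ 2 ≤ n := by
    intro z hz
    by_contra hcon
    push Not at hcon
    set q : ℝ := ‖z‖ with hqdef
    have hq2 : 1 < q ^ 2 := lt_of_le_of_lt (by exact_mod_cast hn) hcon
    have hq1 : 1 < q := by
      by_contra h
      push Not at h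
      nlinarith [norm_nonneg z]
    have hq0 : 0 < q := by linarith
    set e : E n := q⁻¹ • z with he
    have he1 : ‖e‖ = 1 := by
      rw [he, norm_smul, Real.norm_eq_abs, abs_of_pos (inv_pos.2 hq0), ← hqdef, inv_mul_cancel₀ hq0.ne']
    have hqe : q • e = z := by rw [he, smul_smul, mul_inv_cancel₀ hq0.ne', one_smul]
    set Z : Set (E n) := {x | B x ∈ S} with hZ
    have hZconv : Convex ℝ Z := by
      intro x hx y hy s t hs ht hst
      change B (s • x + t • y) ∈ S
      rw [map_add, map_smul, map_smul]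
      exact hSconv hx hy hs ht hst
    have hZsym : ∀ x ∈ Z, -x ∈ Z := by
      intro x hx
      change B (-x) ∈ S
      rw [map_neg]
      exact hSsym _ hx
    have key : ∀ ε : ℝ, 0 < ε → ε < 1 → (1 + ε * (q ^ 2 - 1)) * (1 - ε) ^ (n - 1) ≤ 1 := by
      intro ε hε0 hε1
      set a : ℝ := √(1 + ε * (q ^ 2 - 1)) with ha
      set b : ℝ := √(1 - ε) with hb
      have ha2 : a ^ 2 = 1 + ε * (q ^ 2 - 1) := Real.sq_sqrt (by nlinarith)
      have hb2 : b ^ 2 = 1 - ε := Real.sq_sqrt (by linarith)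
      have ha0 : 0 ≤ a := Real.sqrt_nonneg _
      have hb0 : 0 < b := Real.sqrt_pos.2 (by linarith)
      have hT : ∀ y : E n, ‖y‖ ≤ 1 → Tm e a b y ∈ Z := by
        have hpos : ∀ y : E n, ‖y‖ ≤ 1 → 0 ≤ inner ℝ e y → Tm e a b y ∈ Z := by
          intro y hy hs
          have hp : inner ℝ e (y - (inner ℝ e y) • e) = 0 := by
            rw [inner_sub_right, inner_smul_right, real_inner_self_eq_norm_sq, he1]
            ring
          have hsp : (inner ℝ e y) ^ 2 + ‖y - (inner ℝ e y) • e‖ ^ 2 ≤ 1 := by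
            have h1 : inner ℝ ((inner ℝ e y) • e) (y - (inner ℝ e y) • e) = 0 := by
              rw [inner_smul_left, hp, mul_zero]
            have h2 := norm_add_sq_eq_norm_sq_add_norm_sq_of_inner_eq_zero _ _ h1
            rw [add_sub_cancel, ← pow_two, ← pow_two, ← pow_two, norm_smul, he1, mul_one,
              Real.norm_eq_abs, sq_abs] at h2
            rw [← h2]
            nlinarith [norm_nonneg y]
          have := hull Z hZconv hBL e he1 q hq1 (by rw [hqe]; exact hz) (inner ℝ e y)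
            (y - (inner ℝ e y) • e) hp hsp a b ε ha2 hb2 ha0 hb0.le hε0.le hs
          rw [Tm_eq]
          exact this
        intro y hy
        rcases le_total 0 (inner ℝ e y) with h | h
        · exact hpos y hy h
        · have h1 := hpos (-y) (by rw [norm_neg]; exact hy) (by rw [inner_neg_right]; linarith)
          have h2 := hZsym _ h1
          rw [map_neg, neg_neg] at h2
          exact h2
      have hBT : B.comp (Tm e a b) ∈ L := fun y hy => hT y hy
      have hmax := hBmax hBT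
      simp only [Set.mem_ofPred_eq] at hmax
      have hdetc : (B.comp (Tm e a b)).det = B.det * (a * b ^ (n - 1)) := by
        have : (B.comp (Tm e a b)).det = B.det * (Tm e a b).det := by
          exact LinearMap.det_comp _ _
        rw [this, Tm_det hn e he1 a b hb0.ne']
      rw [hdetc, abs_mul, abs_of_nonneg (mul_nonneg ha0 (pow_nonneg hb0.le _))] at hmax
      have h3 : a * b ^ (n - 1) ≤ 1 := by
        by_contra h
        push Not at h
        nlinarith
      have h4 : (a * b ^ (n - 1)) ^ 2 ≤ 1 :=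
        pow_le_one₀ (mul_nonneg ha0 (pow_nonneg hb0.le _)) h3
      rw [mul_pow, ← pow_mul, mul_comm (n - 1) 2, pow_mul, ha2, hb2] at h4
      exact h4
    set δ : ℝ := q ^ 2 - n with hδ
    have hδ0 : 0 < δ := by linarith
    set M : ℝ := (q ^ 2 - 1) * (n - 1) with hM
    have hn1 : (0 : ℝ) ≤ n - 1 := by
      have : (1 : ℝ) ≤ n := by exact_mod_cast hn
      linarith
    have hM0 : 0 ≤ M := mul_nonneg (by linarith) hn1
    set ε : ℝ := δ / (δ + 1 + M) with hε
    have hden : 0 < δ + 1 + M := by positivity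
    have hε0 : 0 < ε := div_pos hδ0 hden
    have hε1 : ε < 1 := by rw [hε, div_lt_one hden]; linarith
    have hεM : ε * (δ + 1 + M) = δ := by rw [hε]; field_simp
    have hk := key ε hε0 hε1
    have hbern : 1 + ((n - 1 : ℕ) : ℝ) * (-ε) ≤ (1 + -ε) ^ (n - 1) :=
      one_add_mul_le_pow (by linarith) (n - 1)
    have hcast : ((n - 1 : ℕ) : ℝ) = n - 1 := by
      rw [Nat.cast_sub hn]; simp
    rw [hcast] at hbern
    have hk2 : (1 + ε * (q ^ 2 - 1)) * (1 + (n - 1) * (-ε)) ≤ 1 := by
      refine le_trans (mul_le_mul_of_nonneg_left hbern ?_) (by simpa [sub_eq_add_neg] using hk)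
      nlinarith
    have h5 : ε * (δ - ε * M) ≤ 0 := by
      rw [hδ, hM]
      nlinarith
    have h6 : ε * M < δ := by nlinarith
    nlinarith [mul_pos hε0 (sub_pos.2 h6)]
  -- conclusion
  set Be := B.toContinuousLinearEquivOfDetNeZero hdet0 with hBe
  have hBe_apply : ∀ x, Be x = B x := fun x => by
    rw [hBe, ContinuousLinearMap.toContinuousLinearEquivOfDetNeZero_apply]
  refine ⟨Be.symm, ?_, ?_⟩
  · intro x hx
    have h1 : (1 / (n : ℝ)) • x ∈ K := by
      have h0 : (0 : E n) ∈ K := interior_subset hK0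
      have h1n : 1 / (n : ℝ) ≤ 1 := by
        rw [div_le_one hn0]; exact_mod_cast hn
      have := hK hx h0 (a := 1 / (n : ℝ)) (b := 1 - 1 / (n : ℝ)) (by positivity) (by linarith) (by ring)
      simpa using this
    have h2 : (1 / (n : ℝ)) • x ∈ S := ⟨h1, hneg x hx⟩
    have h3 : B ((1 / (n : ℝ)) • Be.symm x) ∈ S := by
      rw [← hBe_apply, map_smul, ContinuousLinearEquiv.apply_symm_apply]
      exact h2
    have h4 := hclaim _ h3
    rw [norm_smul, mul_pow, Real.norm_eq_abs, sq_abs] at h4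
    have h5 : ‖Be.symm x‖ ^ 2 = (n : ℝ) ^ 2 * ((1 / (n : ℝ)) ^ 2 * ‖Be.symm x‖ ^ 2) := by
      field_simp
    rw [h5]
    calc (n : ℝ) ^ 2 * ((1 / (n : ℝ)) ^ 2 * ‖Be.symm x‖ ^ 2) ≤ (n : ℝ) ^ 2 * n :=
          mul_le_mul_of_nonneg_left h4 (by positivity)
      _ = (n : ℝ) ^ 3 := by ring
  · intro y hy
    rw [ContinuousLinearEquiv.symm_symm, hBe_apply]
    exact (hBL y hy).1

end Pool.Agent.Work.LPBM.helper71
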