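import Pool.Agent.Work.MP_b5407d_lp.Interface

set_option autoImplicit false
open MeasureTheory Real Filter Topology
open scoped ContDiff Pointwise

/-!
Block MOL of the campaign LP (MP_b5407d_gt): a weak solution is approximated by `C^1` solutions of a
perturbed equation (Friedrichs mollifiers).
-/

namespace Pool.Agent.Work.LPBM.helper71

/-- convolution with kernel `φ` -/
noncomputable def cv {n : ℕ} (φ f : E n → ℝ) (x : E n) : ℝ := ∫ y, φ (x - y) * f y

theorem cv_eq {n : ℕ} (φ f : E n → ℝ) :
    cv φ f = MeasureTheory.convolution f φ (ContinuousLinearMap.mul ℝ ℝ).flip volume := by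
  rw [MeasureTheory.convolution_flip]
  funext x
  rw [MeasureTheory.convolution_mul_swap]
  rfl

theorem cv_contDiff {n : ℕ} {φ f : E n → ℝ} (m : ℕ∞) (hφ : ContDiff ℝ m φ) (hc : HasCompactSupport φ)
    (hf : LocallyIntegrable f volume) : ContDiff ℝ m (cv φ f) := by
  rw [cv_eq]
  exact hc.contDiff_convolution_right _ hf hφ

theorem pd_cv {n : ℕ} {φ f : E n → ℝ} (hφ : ContDiff ℝ 1 φ) (hc : HasCompactSupport φ)
    (hf : LocallyIntegrable f volume) (j : Fin n) (x : E n) :
    pd j (cv φ f) x = cv (pd j φ) f x := by
  have h := hc.hasFDerivAt_convolution_right (ContinuousLinearMap.mul ℝ ℝ).flip hf hφ x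
  rw [← cv_eq] at h
  unfold pd
  rw [h.fderiv, convolution_precompR_apply _ hf (hc.fderiv ℝ) (hφ.continuous_fderiv one_ne_zero)]
  rw [cv_eq]

theorem cv_swap {n : ℕ} (φ f : E n → ℝ) : cv φ f = cv f φ := by
  funext x
  unfold cv
  rw [← integral_sub_left_eq_self (fun y => φ (x - y) * f y) volume x]
  refine integral_congr_ae (Eventually.of_forall fun y => ?_)
  simp only [sub_sub_cancel]
  exact mul_comm _ _

theorem cv_compact {n : ℕ} {φ f : E n → ℝ} (hc : HasCompactSupport φ) (hf : HasCompactSupport f) :
    HasCompactSupport (cv φ f) := by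
  rw [cv_eq]
  exact HasCompactSupport.convolution _ hf hc

theorem pd_continuous {n : ℕ} {f : E n → ℝ} (hf : ContDiff ℝ 1 f) (j : Fin n) : Continuous (pd j f) := by
  unfold pd
  exact (hf.continuous_fderiv one_ne_zero).clm_apply continuous_const

theorem pd_compact {n : ℕ} {f : E n → ℝ} (hf : HasCompactSupport f) (j : Fin n) :
    HasCompactSupport (pd j f) := by
  exact (hf.fderiv_apply (𝕜 := ℝ) (EuclideanSpace.single j (1 : ℝ)))

theorem cv_continuous {n : ℕ} {φ f : E n → ℝ} (hφ : Continuous φ) (hc : HasCompactSupport φ)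
    (hf : LocallyIntegrable f volume) : Continuous (cv φ f) := by
  rw [cv_eq]
  exact hc.continuous_convolution_right _ hf hφ

/-- Fubini -/
theorem fub {n : ℕ} {φ w g : E n → ℝ} (hφ : Continuous φ) (hc : HasCompactSupport φ)
    (hw : Continuous w) (hwc : HasCompactSupport w) (hg : LocallyIntegrable g volume) :
    ∫ x, g x * cv φ w x = ∫ y, w y * ∫ x, φ (x - y) * g x := by
  -- the compact set
  have hK : IsCompact (tsupport φ + tsupport w) := hc.isCompact.add hwc.isCompact
  set K : Set (E n) := tsupport φ + tsupport w with hKdef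
  have hgK : Integrable (K.indicator g) volume :=
    (integrable_indicator_iff hK.measurableSet).2 (hg.integrableOn_isCompact hK)
  have hwi : Integrable w volume := hw.integrable_of_hasCompactSupport hwc
  have hprod : Integrable (fun z : E n × E n => K.indicator g z.1 * w z.2) (volume.prod volume) :=
    hgK.mul_prod hwi
  obtain ⟨C, hC⟩ := hc.exists_bound_of_continuous hφ
  have hprod2 : Integrable (fun z : E n × E n => φ (z.1 - z.2) * (K.indicator g z.1 * w z.2))
      (volume.prod volume) := by
    refine hprod.bdd_mul (c := C) ?_ ?_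
    · exact (hφ.comp (continuous_fst.sub continuous_snd)).aestronglyMeasurable
    · exact Eventually.of_forall fun z => hC _
  have hpt : ∀ z : E n × E n, φ (z.1 - z.2) * (K.indicator g z.1 * w z.2)
      = g z.1 * (φ (z.1 - z.2) * w z.2) := by
    intro z
    by_cases h : φ (z.1 - z.2) = 0
    · rw [h]; ring
    by_cases h2 : w z.2 = 0
    · rw [h2]; ring
    have hz : z.1 ∈ K := by
      refine ⟨z.1 - z.2, subset_tsupport _ h, z.2, subset_tsupport _ h2, ?_⟩
      simp
    rw [Set.indicator_of_mem hz]
    ring
  have hint : Integrable (fun z : E n × E n => g z.1 * (φ (z.1 - z.2) * w z.2)) (volume.prod volume) :=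
    hprod2.congr (Eventually.of_forall hpt)
  have e1 : ∫ x, g x * cv φ w x = ∫ x, ∫ y, g x * (φ (x - y) * w y) := by
    refine integral_congr_ae (Eventually.of_forall fun x => ?_)
    simp only [cv]
    rw [integral_const_mul]
  rw [e1, integral_integral_swap hint]
  refine integral_congr_ae (Eventually.of_forall fun y => ?_)
  simp only
  rw [← integral_const_mul]
  refine integral_congr_ae (Eventually.of_forall fun x => ?_)
  simp only
  ring

/-- `L^2_loc` -/
theorem l2loc {n : ℕ} {V ψ F : E n → ℝ} (hV : Continuous V) (hF : Continuous F)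
    (h : Integrable (fun x => (ψ x) ^ 2 * wt V x)) (ρ : ℝ) :
    IntegrableOn (fun x => (ψ x * wt V x * F x) ^ 2) (Metric.ball (0 : E n) ρ) volume := by
  have hw : Continuous (wt V) := by unfold wt; fun_prop
  have hc : Continuous (fun x : E n => wt V x * F x ^ 2) := hw.mul (hF.pow 2)
  obtain ⟨C, hC⟩ := (isCompact_closedBall (0 : E n) ρ).exists_bound_of_continuousOn hc.continuousOn
  have h1 : Integrable (fun x => (wt V x * F x ^ 2) * ((ψ x) ^ 2 * wt V x))
      (volume.restrict (Metric.ball (0 : E n) ρ)) := by
    refine (h.integrableOn (s := Metric.ball (0 : E n) ρ)).bdd_mul (c := C) hc.aestronglyMeasurable ?_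
    refine (ae_restrict_iff' measurableSet_ball).2 (Eventually.of_forall fun x hx => ?_)
    exact hC x (Metric.ball_subset_closedBall hx)
  refine h1.congr (Eventually.of_forall fun x => ?_)
  simp only
  ring

theorem li_of_l2loc {n : ℕ} {f : E n → ℝ} (hf : AEStronglyMeasurable f volume)
    (h : ∀ ρ : ℝ, IntegrableOn (fun x => (f x) ^ 2) (Metric.ball (0 : E n) ρ) volume) :
    LocallyIntegrable f volume := by
  intro x
  refine ⟨Metric.ball (0 : E n) (‖x‖ + 1), ?_, ?_⟩
  · exact Metric.isOpen_ball.mem_nhds (by simp)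
  · have h1 : IntegrableOn (fun x => 1 + (f x) ^ 2) (Metric.ball (0 : E n) (‖x‖ + 1)) volume :=
      (integrableOn_const (by simp [measure_ball_lt_top.ne])).add (h _)
    refine Integrable.mono' h1 hf.restrict (Eventually.of_forall fun y => ?_)
    rw [Real.norm_eq_abs]
    nlinarith [sq_abs (f y), sq_nonneg (|f y| - 1)]

theorem pd_odd {n : ℕ} {φ : E n → ℝ} (h : ∀ x, φ (-x) = φ x) (j : Fin n) (x : E n) :
    pd j φ (-x) = - pd j φ x := by
  have h1 : φ ∘ (ContinuousLinearEquiv.neg ℝ : E n ≃L[ℝ] E n) = φ := funext h
  have h2 := (ContinuousLinearEquiv.neg ℝ : E n ≃L[ℝ] E n).comp_right_fderiv (f := φ) (x := x)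
  rw [h1] at h2
  unfold pd
  rw [h2]
  simp

theorem int_mul {n : ℕ} {g F : E n → ℝ} (hg : LocallyIntegrable g volume) (hF : Continuous F)
    (hFc : HasCompactSupport F) : Integrable (fun x => g x * F x) volume := by
  have := hg.integrable_smul_left_of_hasCompactSupport hF hFc
  refine this.congr (Eventually.of_forall fun x => ?_)
  simp only [smul_eq_mul]
  exact mul_comm _ _

theorem diff_sq_int {n : ℕ} {φ f : E n → ℝ} (hφ : Continuous φ) (hc : HasCompactSupport φ)
    (hf : AEStronglyMeasurable f volume)
    (h : ∀ ρ : ℝ, IntegrableOn (fun x => (f x) ^ 2) (Metric.ball (0 : E n) ρ) volume) (ρ : ℝ) :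
    IntegrableOn (fun x => (cv φ f x - f x) ^ 2) (Metric.ball (0 : E n) ρ) volume := by
  have hcc : Continuous (cv φ f) := cv_continuous hφ hc (li_of_l2loc hf h)
  have h1 : IntegrableOn (fun x => cv φ f x ^ 2) (Metric.ball (0 : E n) ρ) volume :=
    ((hcc.pow 2).continuousOn.integrableOn_compact (isCompact_closedBall (0 : E n) ρ)).mono_set
      Metric.ball_subset_closedBall
  have h2 := (h1.const_mul 2).add ((h ρ).const_mul 2)
  refine Integrable.mono' h2 ((hcc.aestronglyMeasurable.sub hf).pow 2).restrict
    (Eventually.of_forall fun x => ?_)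
  rw [Real.norm_eq_abs, abs_of_nonneg (sq_nonneg _)]
  simp only [Pi.add_apply]
  nlinarith [sq_nonneg (cv φ f x + f x)]

/-- the weak equation, rewritten -/
theorem weak_eq {n : ℕ} {V ψ η w : E n → ℝ} (hV : ContDiff ℝ 2 V)
    (hψ : AEStronglyMeasurable ψ volume) (hint : Integrable (fun x => (ψ x) ^ 2 * wt V x))
    (hweak : ∀ u : E n → ℝ, Test u → ∫ x, ψ x * Lop V u x * wt V x = 0)
    (hη : ContDiff ℝ ∞ η) (hηc : HasCompactSupport η) (hev : ∀ x, η (-x) = η x)
    (hw : ContDiff ℝ 1 w) (hwc : HasCompactSupport w) :
    ∑ j, ((∫ y, pd j w y * cv (pd j η) (fun x => ψ x * wt V x) y)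
      + ∫ y, pd j w y * cv η (fun x => ψ x * wt V x * pd j V x) y) = 0 := by
  have hV1 : ContDiff ℝ 1 V := hV.of_le (by norm_num)
  have hη1 : ContDiff ℝ 1 η := hη.of_le (by exact_mod_cast le_top)
  have hwt : Continuous (wt V) := by unfold wt; exact Real.continuous_exp.comp hV.continuous.neg
  have hg0m : AEStronglyMeasurable (fun x => ψ x * wt V x) volume := hψ.mul hwt.aestronglyMeasurable
  have hg0 : LocallyIntegrable (fun x => ψ x * wt V x) volume := by
    refine li_of_l2loc hg0m fun ρ => ?_
    have := l2loc (F := fun _ => 1) hV.continuous continuous_const hint ρ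
    simpa using this
  have hgj : ∀ j, LocallyIntegrable (fun x => ψ x * wt V x * pd j V x) volume := by
    intro j
    exact li_of_l2loc (hg0m.mul (pd_continuous hV1 j).aestronglyMeasurable)
      fun ρ => l2loc hV.continuous (pd_continuous hV1 j) hint ρ
  have hwl : LocallyIntegrable w volume := hw.continuous.locallyIntegrable
  have hpdw : ∀ j, Continuous (pd j w) := fun j => pd_continuous hw j
  have hpdwc : ∀ j, HasCompactSupport (pd j w) := fun j => pd_compact hwc j
  have hT : Test (cv η w) := ⟨cv_contDiff ⊤ hη hηc hwl, cv_compact hηc hwc⟩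
  have hp1 : ∀ j, pd j (cv η w) = cv η (pd j w) := by
    intro j
    funext x
    rw [cv_swap, pd_cv hw hwc hη.continuous.locallyIntegrable, cv_swap]
  have hp2 : ∀ j, pd j (pd j (cv η w)) = cv (pd j η) (pd j w) := by
    intro j
    rw [hp1]
    funext x
    exact pd_cv hη1 hηc (hpdw j).locallyIntegrable j x
  have h0 := hweak _ hT
  have hcomp1 : ∀ j, Continuous (cv (pd j η) (pd j w)) := fun j =>
    cv_continuous (pd_continuous hη1 j) (pd_compact hηc j) (hpdw j).locallyIntegrable
  have hcomp2 : ∀ j, Continuous (cv η (pd j w)) := fun j =>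
    cv_continuous hη.continuous hηc (hpdw j).locallyIntegrable
  have e1 : ∫ x, ψ x * Lop V (cv η w) x * wt V x
      = ∑ j, ((∫ x, (ψ x * wt V x) * cv (pd j η) (pd j w) x)
        - ∫ x, (ψ x * wt V x * pd j V x) * cv η (pd j w) x) := by
    have hi1 : ∀ j, Integrable (fun x => (ψ x * wt V x) * cv (pd j η) (pd j w) x) volume :=
      fun j => int_mul hg0 (hcomp1 j) (cv_compact (pd_compact hηc j) (hpdwc j))
    have hi2 : ∀ j, Integrable (fun x => (ψ x * wt V x * pd j V x) * cv η (pd j w) x) volume :=
      fun j => int_mul (hgj j) (hcomp2 j) (cv_compact hηc (hpdwc j))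
    have e2 : ∀ j, (∫ x, (ψ x * wt V x) * cv (pd j η) (pd j w) x)
        - ∫ x, (ψ x * wt V x * pd j V x) * cv η (pd j w) x
        = ∫ x, ((ψ x * wt V x) * cv (pd j η) (pd j w) x
          - (ψ x * wt V x * pd j V x) * cv η (pd j w) x) := by
      intro j
      rw [integral_sub (hi1 j) (hi2 j)]
    rw [Finset.sum_congr rfl fun j _ => e2 j, ← integral_finsetSum]
    · refine integral_congr_ae (Eventually.of_forall fun x => ?_)
      simp only
      unfold Lop
      rw [Finset.mul_sum, Finset.sum_mul]
      refine Finset.sum_congr rfl fun j _ => ?_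
      rw [hp2, hp1]
      ring
    · intro j _
      exact (hi1 j).sub (hi2 j)
  rw [e1] at h0
  have hodd : ∀ j y, ∫ x, pd j η (x - y) * (ψ x * wt V x)
      = - cv (pd j η) (fun x => ψ x * wt V x) y := by
    intro j y
    unfold cv
    rw [← integral_neg]
    refine integral_congr_ae (Eventually.of_forall fun x => ?_)
    simp only
    rw [← neg_sub y x, pd_odd hev]
    ring
  have heven : ∀ j y, ∫ x, η (x - y) * (ψ x * wt V x * pd j V x)
      = cv η (fun x => ψ x * wt V x * pd j V x) y := by
    intro j y
    unfold cv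
    refine integral_congr_ae (Eventually.of_forall fun x => ?_)
    simp only
    rw [← neg_sub y x, hev]
  have e3 : ∀ j, ((∫ x, (ψ x * wt V x) * cv (pd j η) (pd j w) x)
        - ∫ x, (ψ x * wt V x * pd j V x) * cv η (pd j w) x)
      = -((∫ y, pd j w y * cv (pd j η) (fun x => ψ x * wt V x) y)
      + ∫ y, pd j w y * cv η (fun x => ψ x * wt V x * pd j V x) y) := by
    intro j
    rw [fub (pd_continuous hη1 j) (pd_compact hηc j) (hpdw j) (hpdwc j) hg0,
      fub hη.continuous hηc (hpdw j) (hpdwc j) (hgj j)]
    simp only [hodd, heven]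
    have : ∫ y, pd j w y * -cv (pd j η) (fun x => ψ x * wt V x) y
        = - ∫ y, pd j w y * cv (pd j η) (fun x => ψ x * wt V x) y := by
      rw [← integral_neg]
      refine integral_congr_ae (Eventually.of_forall fun x => ?_)
      simp only
      ring
    rw [this]
    ring
  rw [Finset.sum_congr rfl fun j _ => e3 j, Finset.sum_neg_distrib] at h0
  linarith

theorem stmt_MOL (hMOA : Stmt_MOA) : Stmt_MOL := by
  intro n V hV ψ hψ hint hweak
  obtain ⟨η, hsm, _, hev, _, hsupp, hconv⟩ := hMOA n
  have hV1 : ContDiff ℝ 1 V := hV.of_le (by norm_num)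
  have hηc : ∀ m, HasCompactSupport (η m) := by
    intro m
    refine HasCompactSupport.intro (isCompact_closedBall (0 : E n) (1 / ((m : ℝ) + 1))) fun x hx => ?_
    by_contra h
    exact hx (Metric.ball_subset_closedBall (hsupp m h))
  have hη1 : ∀ m, ContDiff ℝ 1 (η m) := fun m => (hsm m).of_le (by exact_mod_cast le_top)
  have hwt : Continuous (wt V) := by unfold wt; exact Real.continuous_exp.comp hV.continuous.neg
  have hg0m : AEStronglyMeasurable (fun x => ψ x * wt V x) volume := hψ.mul hwt.aestronglyMeasurable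
  have hg02 : ∀ ρ : ℝ, IntegrableOn (fun x => (ψ x * wt V x) ^ 2) (Metric.ball (0 : E n) ρ) volume := by
    intro ρ
    have := l2loc (F := fun _ => 1) hV.continuous continuous_const hint ρ
    simpa using this
  have hg0 : LocallyIntegrable (fun x => ψ x * wt V x) volume := li_of_l2loc hg0m hg02
  have hgjm : ∀ j, AEStronglyMeasurable (fun x => ψ x * wt V x * pd j V x) volume :=
    fun j => hg0m.mul (pd_continuous hV1 j).aestronglyMeasurable
  have hgj2 : ∀ j, ∀ ρ : ℝ,
      IntegrableOn (fun x => (ψ x * wt V x * pd j V x) ^ 2) (Metric.ball (0 : E n) ρ) volume :=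
    fun j ρ => l2loc hV.continuous (pd_continuous hV1 j) hint ρ
  have hgj : ∀ j, LocallyIntegrable (fun x => ψ x * wt V x * pd j V x) volume := fun j =>
    li_of_l2loc (hgjm j) (hgj2 j)
  set G : ℕ → E n → ℝ := fun m => cv (η m) (fun x => ψ x * wt V x) with hG
  set H : ℕ → Fin n → E n → ℝ := fun m j => cv (η m) (fun x => ψ x * wt V x * pd j V x) with hH
  have hG1 : ∀ m, ContDiff ℝ 1 (G m) := fun m => by
    have := cv_contDiff (φ := η m) (f := fun x => ψ x * wt V x) 1 (by exact_mod_cast hη1 m) (hηc m) hg0
    exact_mod_cast this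
  have hHc : ∀ m j, Continuous (H m j) := fun m j => cv_continuous (hsm m).continuous (hηc m) (hgj j)
  have hexpV : ContDiff ℝ 1 (fun x => exp (V x)) := hV1.exp
  have hgC : ∀ m, ContDiff ℝ 1 (fun x => exp (V x) * G m x) := fun m => hexpV.mul (hG1 m)
  have hpdg : ∀ m j x, pd j (fun x => exp (V x) * G m x) x * wt V x
      = pd j V x * G m x + cv (pd j (η m)) (fun x => ψ x * wt V x) x := by
    intro m j x
    have hd1 : DifferentiableAt ℝ (fun x => exp (V x)) x := (hexpV.differentiable one_ne_zero) x
    have hd2 : DifferentiableAt ℝ (G m) x := ((hG1 m).differentiable one_ne_zero) x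
    have hd3 : DifferentiableAt ℝ V x := (hV1.differentiable one_ne_zero) x
    have e1 : pd j (fun x => exp (V x) * G m x) x = exp (V x) * pd j (G m) x + G m x * (exp (V x) * pd j V x) := by
      unfold pd
      rw [fderiv_fun_mul hd1 hd2, fderiv_exp hd3]
      simp
    have e2 : exp (V x) * wt V x = 1 := by
      unfold wt
      rw [← Real.exp_add]
      simp
    rw [e1, ← pd_cv (hη1 m) (hηc m) hg0 j x]
    calc (exp (V x) * pd j (G m) x + G m x * (exp (V x) * pd j V x)) * wt V x
        = (exp (V x) * wt V x) * (pd j V x * G m x + pd j (G m) x) := by ring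
      _ = _ := by rw [e2, one_mul]
  refine ⟨fun m x => exp (V x) * G m x, fun m j x => H m j x - pd j V x * G m x, hgC, ?_, ?_, ?_, ?_⟩
  · intro m j
    exact (hHc m j).sub ((pd_continuous hV1 j).mul (hG1 m).continuous)
  · intro m w hw hwc
    have hpdw : ∀ j, Continuous (pd j w) := fun j => pd_continuous hw j
    have hpdwc : ∀ j, HasCompactSupport (pd j w) := fun j => pd_compact hwc j
    have hi1 : Integrable (fun x => (∑ j, pd j (fun x => exp (V x) * G m x) x * pd j w x) * wt V x) volume := by
      have : Integrable (fun x => ∑ j, pd j (fun x => exp (V x) * G m x) x * wt V x * pd j w x) volume := by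
        refine integrable_finsetSum _ fun j _ => ?_
        refine Continuous.integrable_of_hasCompactSupport ?_ ?_
        · exact ((pd_continuous (hgC m) j).mul hwt).mul (hpdw j)
        · exact (hpdwc j).mul_left
      refine this.congr (Eventually.of_forall fun x => ?_)
      simp only
      rw [Finset.sum_mul]
      refine Finset.sum_congr rfl fun j _ => ?_
      ring
    have hi2 : Integrable (fun x => ∑ j, (H m j x - pd j V x * G m x) * pd j w x) volume := by
      refine integrable_finsetSum _ fun j _ => ?_
      refine Continuous.integrable_of_hasCompactSupport ?_ ?_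
      · exact ((hHc m j).sub ((pd_continuous hV1 j).mul (hG1 m).continuous)).mul (hpdw j)
      · exact (hpdwc j).mul_left
    rw [← integral_add hi1 hi2]
    have hweq := weak_eq hV hψ hint hweak (hsm m) (hηc m) (hev m) hw hwc
    have hc1 : ∀ j, Continuous (cv (pd j (η m)) (fun x => ψ x * wt V x)) := fun j =>
      cv_continuous (pd_continuous (hη1 m) j) (pd_compact (hηc m) j) hg0
    have hj1 : ∀ j, Integrable (fun y => pd j w y * cv (pd j (η m)) (fun x => ψ x * wt V x) y) volume :=
      fun j => ((hpdw j).mul (hc1 j)).integrable_of_hasCompactSupport (hpdwc j).mul_right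
    have hj2 : ∀ j, Integrable (fun y => pd j w y * H m j y) volume :=
      fun j => ((hpdw j).mul (hHc m j)).integrable_of_hasCompactSupport (hpdwc j).mul_right
    rw [← hweq]
    have e3 : ∀ j, ((∫ y, pd j w y * cv (pd j (η m)) (fun x => ψ x * wt V x) y)
        + ∫ y, pd j w y * cv (η m) (fun x => ψ x * wt V x * pd j V x) y)
        = ∫ y, (pd j w y * cv (pd j (η m)) (fun x => ψ x * wt V x) y + pd j w y * H m j y) := by
      intro j
      rw [integral_add (hj1 j) (hj2 j)]
    rw [Finset.sum_congr rfl fun j _ => e3 j, ← integral_finsetSum]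
    · refine integral_congr_ae (Eventually.of_forall fun x => ?_)
      simp only
      rw [Finset.sum_mul, ← Finset.sum_add_distrib]
      refine Finset.sum_congr rfl fun j _ => ?_
      have := hpdg m j x
      calc pd j (fun x => exp (V x) * G m x) x * pd j w x * wt V x + (H m j x - pd j V x * G m x) * pd j w x
          = (pd j (fun x => exp (V x) * G m x) x * wt V x) * pd j w x
            + (H m j x - pd j V x * G m x) * pd j w x := by ring
        _ = _ := by rw [this]; ring
    · intro j _
      exact (hj1 j).add (hj2 j)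
  · intro ρ
    obtain ⟨C, hC⟩ := (isCompact_closedBall (0 : E n) ρ).exists_bound_of_continuousOn
      (f := fun x => exp (V x) ^ 2) (hexpV.continuous.pow 2).continuousOn
    have hlim := (hconv (fun x => ψ x * wt V x) hg0m hg02 ρ).const_mul C
    rw [mul_zero] at hlim
    refine squeeze_zero (fun m => integral_nonneg fun x => sq_nonneg _) (fun m => ?_) hlim
    have hD := diff_sq_int (hsm m).continuous (hηc m) hg0m hg02 ρ
    rw [← integral_const_mul]
    refine setIntegral_mono_on_ae ?_ (hD.const_mul C) measurableSet_ball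
      (Eventually.of_forall fun x hx => ?_)
    · have hb : Integrable (fun x => exp (V x) ^ 2 * (cv (η m) (fun x => ψ x * wt V x) x - ψ x * wt V x) ^ 2)
          (volume.restrict (Metric.ball (0 : E n) ρ)) := by
        refine Integrable.bdd_mul (c := C) hD (hexpV.continuous.pow 2).aestronglyMeasurable ?_
        exact (ae_restrict_iff' measurableSet_ball).2 (Eventually.of_forall fun x hx =>
          hC x (Metric.ball_subset_closedBall hx))
      refine hb.congr (Eventually.of_forall fun x => ?_)
      simp only [hG]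
      have e2 : exp (V x) * wt V x = 1 := by
        unfold wt
        rw [← Real.exp_add]
        simp
      have e3 : exp (V x) * cv (η m) (fun x => ψ x * wt V x) x - ψ x
          = exp (V x) * (cv (η m) (fun x => ψ x * wt V x) x - ψ x * wt V x) := by
        calc exp (V x) * cv (η m) (fun x => ψ x * wt V x) x - ψ x
            = exp (V x) * cv (η m) (fun x => ψ x * wt V x) x - (exp (V x) * wt V x) * ψ x := by
              rw [e2, one_mul]
          _ = _ := by ring
      rw [e3]
      ring
    · have e2 : exp (V x) * wt V x = 1 := by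
        unfold wt
        rw [← Real.exp_add]
        simp
      have e3 : exp (V x) * G m x - ψ x
          = exp (V x) * (cv (η m) (fun x => ψ x * wt V x) x - ψ x * wt V x) := by
        calc exp (V x) * cv (η m) (fun x => ψ x * wt V x) x - ψ x
            = exp (V x) * cv (η m) (fun x => ψ x * wt V x) x - (exp (V x) * wt V x) * ψ x := by
              rw [e2, one_mul]
          _ = _ := by ring
      rw [e3, mul_pow]
      have := hC x (Metric.ball_subset_closedBall hx)
      rw [Real.norm_eq_abs, abs_of_nonneg (by positivity)] at this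
      exact mul_le_mul_of_nonneg_right this (sq_nonneg _)
  · intro ρ
    choose C hC using fun j => (isCompact_closedBall (0 : E n) ρ).exists_bound_of_continuousOn
      (f := fun x => pd j V x ^ 2) ((pd_continuous hV1 j).pow 2).continuousOn
    have hlim1 := hconv (fun x => ψ x * wt V x) hg0m hg02 ρ
    have hlim2 := fun j => hconv (fun x => ψ x * wt V x * pd j V x) (hgjm j) (hgj2 j) ρ
    have hlim : Tendsto (fun m => ∑ j, (2 * (∫ x in Metric.ball (0 : E n) ρ,
        (cv (η m) (fun x => ψ x * wt V x * pd j V x) x - ψ x * wt V x * pd j V x) ^ 2)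
        + 2 * C j * (∫ x in Metric.ball (0 : E n) ρ,
        (cv (η m) (fun x => ψ x * wt V x) x - ψ x * wt V x) ^ 2))) atTop (𝓝 0) := by
      have h3 : ∀ j : Fin n, Tendsto (fun m => 2 * (∫ x in Metric.ball (0 : E n) ρ,
          (cv (η m) (fun x => ψ x * wt V x * pd j V x) x - ψ x * wt V x * pd j V x) ^ 2)
          + 2 * C j * (∫ x in Metric.ball (0 : E n) ρ,
          (cv (η m) (fun x => ψ x * wt V x) x - ψ x * wt V x) ^ 2)) atTop (𝓝 0) := by
        intro j
        have := ((hlim2 j).const_mul 2).add (hlim1.const_mul (2 * C j))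
        simp only [mul_zero, add_zero] at this
        exact this
      have := tendsto_finsetSum (Finset.univ : Finset (Fin n)) (fun j _ => h3 j)
      simpa using this
    refine squeeze_zero (fun m => integral_nonneg fun x => Finset.sum_nonneg fun j _ => sq_nonneg _)
      (fun m => ?_) hlim
    have hD := diff_sq_int (hsm m).continuous (hηc m) hg0m hg02 ρ
    have hDj := fun j => diff_sq_int (hsm m).continuous (hηc m) (hgjm j) (hgj2 j) ρ
    have hr : ∀ j, IntegrableOn (fun x => (H m j x - pd j V x * G m x) ^ 2) (Metric.ball (0 : E n) ρ)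
        volume := fun j =>
      ((((hHc m j).sub ((pd_continuous hV1 j).mul (hG1 m).continuous)).pow 2).continuousOn.integrableOn_compact
        (isCompact_closedBall (0 : E n) ρ)).mono_set Metric.ball_subset_closedBall
    rw [integral_finsetSum _ fun j _ => hr j]
    refine Finset.sum_le_sum fun j _ => ?_
    rw [← integral_const_mul, ← integral_const_mul, ← integral_add ((hDj j).const_mul 2) (hD.const_mul (2 * C j))]
    refine setIntegral_mono_on_ae (hr j) (((hDj j).const_mul 2).add (hD.const_mul (2 * C j)))
      measurableSet_ball (Eventually.of_forall fun x hx => ?_)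
    have hb := hC j x (Metric.ball_subset_closedBall hx)
    rw [Real.norm_eq_abs, abs_of_nonneg (sq_nonneg _)] at hb
    have e : H m j x - pd j V x * G m x
        = (cv (η m) (fun x => ψ x * wt V x * pd j V x) x - ψ x * wt V x * pd j V x)
          - pd j V x * (cv (η m) (fun x => ψ x * wt V x) x - ψ x * wt V x) := by
      simp only [hG, hH]
      ring
    rw [e]
    have h5 := mul_le_mul_of_nonneg_right hb (sq_nonneg (cv (η m) (fun x => ψ x * wt V x) x - ψ x * wt V x))
    set A := cv (η m) (fun x => ψ x * wt V x * pd j V x) x - ψ x * wt V x * pd j V x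
    set B := cv (η m) (fun x => ψ x * wt V x) x - ψ x * wt V x
    have h6 : (A - pd j V x * B) ^ 2 ≤ 2 * A ^ 2 + 2 * (pd j V x ^ 2 * B ^ 2) := by
      nlinarith [sq_nonneg (A + pd j V x * B)]
    linarith

end Pool.Agent.Work.LPBM.helper71
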